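import Pool.Agent.V11273.PV.G23
import Pool.Agent.TH813.EKPer

/-!
# Periods of 1-motives over bases of any dimension

Let `E_z : y² = 4 x³ - g₂(z) x - g₃(z)` be a family of elliptic curves over a base of any dimension `d`: `g₂, g₃` are algebraic
functions of `d` variables on a connected open set `U` of `ℂ^d`, and the quotient `ω₂/ω₁` of the periods is not constant. Let
`P_i = (℘(p_i), ℘'(p_i))`, `i < r`, be algebraic sections, independent modulo torsion, and let `f_k = exp(t_k)`, `k < s`, be
algebraic functions, multiplicatively independent modulo constants. As every variety is locally finite over an affine space,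
this is (a branch of) an arbitrary family of 1-motives `M_z = [ℤ^r → E_z] ⊕ [ℤ^s → 𝔾_m]` (given by the `P_i` and the `f_k`) over
an arbitrary base, for instance over the base of dimension `2 + r + s` with the coordinates `g₂, g₃, x(P_1), …, x(P_r)`,
`f_1, …, f_s`: the family of all these 1-motives.

The periods of `M_z` are algebraic over the field generated by `2 π i` and by the `3 + 2 r + s` numbers

  `ω₁(z), ω₂(z), η₁(z)`, `p_i(z)`, `ζ(p_i(z))`, `t_k(z)`,

and the motivic Galois group of `M_z` has dimension `4 + 2 r + s` in general, so that these numbers and `2 π i` are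
algebraically independent according to Grothendieck's conjecture. The same is expected for a sum of such motives
`M_{j, z_j}` in finitely many families, with arbitrary independent `z_j`: `∑ (3 + 2 r_j + s_j)` numbers which are algebraically
independent over `ℚ(π)`.

We prove this in bounded degree and height for almost all algebraic fibres: for all tuples `(z_j)` of points of height at
most `T` over a number field of degree at most `ω T`, outside of a sparse set, the numbers satisfy no polynomial relation of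
degree at most `ω T` and height at most `T ^ ω T`, not even with coefficients which are combinations of arbitrary complex
numbers `ξ_i`, for instance of the monomials in `2 π i` and in the periods of a fixed motive. Here `ω T → ∞`.
-/

set_option autoImplicit false

open Filter NumberField
open scoped PeriodPair

namespace Pool.Agent.Results.MP_ae0f86_nt.AlmostAllOneMotives

/-- The Weierstrass zeta function `ζ(z) = ∑ (1/(z-l) + 1/l + z/l²)`, the sum over the lattice (the summand of `l = 0` is
`1/z`, as `1/0 = 0`). -/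
noncomputable def ζ (L : PeriodPair) (z : ℂ) : ℂ := ∑' l : L.lattice, (1 / (z - l) + 1 / l + z / l ^ 2)

/-- `g` is an algebraic function of the coordinates on `U`: it satisfies an equation `Q(x, g(x)) = 0`, `Q ≠ 0` a polynomial -/
def IsAlgebraicOn {X : Type} (U : Set (X → ℂ)) (g : (X → ℂ) → ℂ) : Prop :=
  ∃ Q : Polynomial (MvPolynomial X ℂ), Q ≠ 0 ∧ ∀ x ∈ U, Q.eval₂ (MvPolynomial.eval x) (g x) = 0

/-- A family of 1-motives over an open set `U` of `ℂ^d`, with periods `ω₁, ω₂`, elliptic logarithms `p_i` of `r` sections and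
logarithms `t_k` of `s` functions. -/
structure Family where
  /-- the dimension of the base -/
  d : ℕ
  /-- the number of the points -/
  r : ℕ
  /-- the number of the functions -/
  s : ℕ
  /-- the base -/
  U : Set (Fin d → ℂ)
  /-- the lattices of periods -/
  Λ : (Fin d → ℂ) → PeriodPair
  /-- the elliptic logarithms -/
  p : Fin r → (Fin d → ℂ) → ℂ
  /-- the logarithms -/
  t : Fin s → (Fin d → ℂ) → ℂ
  isOpen : IsOpen U
  isPreconnected : IsPreconnected U
  nonempty : U.Nonempty
  /-- the lattice depends analytically on `z`, and its invariants are algebraic functions -/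
  analytic₁ : AnalyticOnNhd ℂ (fun z => (Λ z).ω₁) U
  analytic₂ : AnalyticOnNhd ℂ (fun z => (Λ z).ω₂) U
  algebraic₂ : IsAlgebraicOn U fun z => (Λ z).g₂
  algebraic₃ : IsAlgebraicOn U fun z => (Λ z).g₃
  /-- the family of elliptic curves is not isotrivial -/
  nonconstant : ∀ c : ℂ, ∃ z ∈ U, (Λ z).ω₂ / (Λ z).ω₁ ≠ c
  /-- the points are algebraic, not zero, and independent modulo torsion -/
  analytic_p : ∀ i, AnalyticOnNhd ℂ (p i) U
  notMem : ∀ i, ∀ z ∈ U, p i z ∉ (Λ z).lattice
  algebraic_p : ∀ i, IsAlgebraicOn U fun z => ℘[Λ z] (p i z)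
  independent_p : ∀ m : Fin r → ℤ, m ≠ 0 → ∃ z ∈ U, ∑ i, (m i : ℂ) * p i z ∉ (Λ z).lattice
  /-- the functions `exp(t_k)` are algebraic and multiplicatively independent modulo constants -/
  analytic_t : ∀ k, AnalyticOnNhd ℂ (t k) U
  algebraic_t : ∀ k, IsAlgebraicOn U fun z => Complex.exp (t k z)
  independent_t : ∀ m : Fin s → ℤ, m ≠ 0 → ∀ b : ℂ, ∃ z ∈ U, ∑ k, (m k : ℂ) * t k z ≠ b

/-- The names of the numbers `ω₁, ω₂, η₁`, and `p_i`, `ζ(p_i)`, `t_k`, in this order. -/
abbrev Name (r s : ℕ) : Type := Fin 3 ⊕ (Fin r ⊕ (Fin r ⊕ Fin s))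

/-- The numbers at the point `z`; here `η₁ = 2 ζ(ω₁ / 2)` (and `η₂` is determined by Legendre's relation
`ω₂ η₁ - ω₁ η₂ = ± 2 π i`). -/
noncomputable def periods (F : Family) (z : Fin F.d → ℂ) : Name F.r F.s → ℂ
  | Sum.inl a => ![(F.Λ z).ω₁, (F.Λ z).ω₂, 2 * ζ (F.Λ z) ((F.Λ z).ω₁ / 2)] a
  | Sum.inr (Sum.inl i) => F.p i z
  | Sum.inr (Sum.inr (Sum.inl i)) => ζ (F.Λ z) (F.p i z)
  | Sum.inr (Sum.inr (Sum.inr k)) => F.t k z

/-- quotients of two integers of `K`, all conjugates of which are at most `T` -/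
def HeightLe (K : Type) [Field K] [NumberField K] (T : ℝ) (x : K) : Prop :=
  ∃ a b : 𝓞 K, b ≠ 0 ∧ house (a : K) ≤ T ∧ house (b : K) ≤ T ∧ x = a / b

/-- `S` is covered by at most `m` hypersurfaces of degree at most `D` -/
def CoveredBy {X : Type} (D m : ℕ) (S : Set (X → ℂ)) : Prop :=
  ∃ Φ : Finset (MvPolynomial X ℂ), Φ.card ≤ m ∧ (∀ P ∈ Φ, P ≠ 0 ∧ P.totalDegree ≤ D) ∧
    ∀ x ∈ S, ∃ P ∈ Φ, MvPolynomial.eval x P = 0

/-- the points of norm at most `k` at distance at least `1 / k` from the complement of `U` -/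
def Inner {X : Type} [Fintype X] (U : Set (X → ℂ)) (k : ℕ) : Set (X → ℂ) :=
  {z | ‖z‖ ≤ k ∧ Metric.ball z (k : ℝ)⁻¹ ⊆ U}

/-- the partial degrees of `P` are at most `k`, and its coefficients are `∑ ξ i * c i`, `i < k`, where the `c i` are
integers of `K`, all conjugates of which are at most `T ^ k` -/
def Small {σ : Type} (K : Type) [Field K] [NumberField K] (io : K →+* ℂ) (k : ℕ) (ξ : Fin k → ℂ) (T : ℝ)
    (P : MvPolynomial σ ℂ) : Prop :=
  (∀ y, P.degreeOf y ≤ k) ∧ ∀ m, ∃ c : Fin k → 𝓞 K, (∀ i (φ : K →+* ℂ), ‖φ (c i : K)‖ ≤ T ^ (k : ℝ)) ∧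
    P.coeff m = ∑ i, ξ i * io (c i : K)

variable {κ : Type} [Fintype κ]

/-- the product of the bases -/
def bases (F : κ → Family) : Set ((Σ j, Fin (F j).d) → ℂ) := {z | ∀ j, (fun i => z ⟨j, i⟩) ∈ (F j).U}

/-- the numbers of all the families at the tuple `z` -/
noncomputable def allPeriods (F : κ → Family) (z : (Σ j, Fin (F j).d) → ℂ) (a : Σ j, Name (F j).r (F j).s) : ℂ :=
  periods (F a.1) (fun i => z ⟨a.1, i⟩) a.2

/-- The exceptional tuples `z` over `K`: they are of height at most `T`, in the compact set `Inner (bases F) k`, and some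
nonzero small polynomial vanishes at the numbers. -/
def Exceptional (F : κ → Family) (K : Type) [Field K] [NumberField K] (io : K →+* ℂ) (k : ℕ) (ξ : Fin k → ℂ) (T : ℝ) :
    Set ((Σ j, Fin (F j).d) → K) :=
  {z | (∀ i, HeightLe K T (z i)) ∧ (fun i => io (z i)) ∈ Inner (bases F) k ∧
    ∃ P : MvPolynomial (Σ j, Name (F j).r (F j).s) ℂ, Small K io k ξ T P ∧
      MvPolynomial.eval (fun a => allPeriods F (fun i => io (z i)) a) P = 0 ∧ P ≠ 0}

/-- Let `F_j` be finitely many families of 1-motives (at least one) over bases of dimension `d_j`. There is `ω → ∞` such that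
for all large `T`, all number fields `K` of degree at most `ω T`, embedded in `ℂ`, and all complex numbers `ξ i`, `i < ω T`,
the set of the exceptional tuples lies on at most `T ^ (1 / ω T)` hypersurfaces of degree at most `T ^ (1 / ω T)`, and has at
most `T ^ (1 / ω T) * N ^ (∑ d_j - 1)` elements, where `N` is the number of the elements of `K` of height at most `T`. At all
other tuples over `K` of height at most `T` (in `Inner (bases F) (ω T)`) the `∑ (3 + 2 r_j + s_j)` numbers `ω₁, ω₂, η₁, p_i`,
`ζ(p_i), t_k` of all the families satisfy no nonzero polynomial relation of partial degrees at most `ω T` with coefficients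
`∑ ξ i * c i`, `c i` integers of `K` of size at most `T ^ ω T`. -/
theorem result [DecidableEq κ] [Nonempty κ] (F : κ → Family) :
    ∃ (ω : ℝ → ℕ) (T₀ : ℝ), Tendsto ω atTop atTop ∧ Monotone ω ∧ ∀ T, T₀ ≤ T → 0 < ω T ∧
      ∀ (K : Type) [Field K] [NumberField K], Module.finrank ℚ K ≤ ω T → ∀ (io : K →+* ℂ) (ξ : Fin (ω T) → ℂ),
        CoveredBy ⌊T ^ ((ω T : ℝ)⁻¹)⌋₊ ⌊T ^ ((ω T : ℝ)⁻¹)⌋₊
          ((fun z i => io (z i)) '' Exceptional F K io (ω T) ξ T) ∧
        (Exceptional F K io (ω T) ξ T).Finite ∧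
        ((Exceptional F K io (ω T) ξ T).ncard : ℝ) ≤
          T ^ ((ω T : ℝ)⁻¹) * ({x : K | HeightLe K T x}.ncard : ℝ) ^ (∑ j, (F j).d - 1) := by
  have hL : ∀ j, Pool.Agent.V11273.PV.FxL (F j).U (F j).Λ (F j).p (F j).t := fun j =>
    ⟨(F j).isOpen, (F j).isPreconnected, (F j).nonempty, (F j).analytic₁, (F j).analytic₂, (F j).nonconstant,
      (F j).analytic_p, (F j).notMem, (by
      intro m hm
      by_contra hne
      obtain ⟨z, hz, hzn⟩ := (F j).independent_p m hne
      exact hzn (hm z hz)), (F j).analytic_t, (by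
      intro m b hb
      by_contra hne
      obtain ⟨z, hz, hzn⟩ := (F j).independent_t m hne b
      exact hzn (hb z hz))⟩
  have hd : ∀ j, 0 < (F j).d := by
    intro j
    rcases Nat.eq_zero_or_pos (F j).d with h0 | h0
    · exfalso
      have hs : Subsingleton (Fin (F j).d → ℂ) := by
        rw [h0]
        infer_instance
      obtain ⟨z₀, hz₀⟩ := (F j).nonempty
      obtain ⟨z, hz, hzn⟩ := (F j).nonconstant (((F j).Λ z₀).ω₂ / ((F j).Λ z₀).ω₁)
      rw [Subsingleton.elim z z₀] at hzn
      exact hzn rfl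
    · exact h0
  have hne : Nonempty (Σ j, Fin (F j).d) := ⟨⟨Classical.arbitrary κ, ⟨0, hd _⟩⟩⟩
  have hmain := Pool.Agent.V11273.PV.main_prodF (U := fun j => (F j).U)
    (f := fun j => Pool.Agent.V11273.PV.yA (F j).Λ (F j).p (F j).t)
    (fun j => (F j).isPreconnected) (fun j => (F j).isOpen) (fun j => (F j).nonempty)
    (fun j v => Pool.Agent.V11273.PV.yA_an (hL j) v)
    (fun j => Pool.Agent.V11273.PV.fl_alg (hL j) (F j).algebraic₂ (F j).algebraic₃ (F j).algebraic_p (F j).algebraic_t)
  have hv : ∀ z a, allPeriods F z a =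
      Pool.Agent.V11273.PV.fP (fun j => Pool.Agent.V11273.PV.yA (F j).Λ (F j).p (F j).t) a z := by
    rintro z ⟨j, a⟩
    rcases a with k | i | i | k
    · fin_cases k
      · rfl
      · rfl
      · exact (Pool.Agent.TH813.Ell.eta_half ((F j).Λ _).ω₁_mem_lattice
          (Pool.Agent.TH813.Ell.half₁ ((F j).Λ _))).symm
    all_goals rfl
  obtain ⟨ω, T₀, h1, h2, h3⟩ := hmain
  refine ⟨ω, T₀, h1, h2, fun T hT => ⟨(h3 T hT).1, fun K _ _ hK io ξ => ?_⟩⟩
  have h4 := (h3 T hT).2 K hK io ξ
  have hset : Exceptional F K io (ω T) ξ T = Pool.Agent.V11273.PV.ExcB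
      (Pool.Agent.V11273.PV.UU fun j => (F j).U)
      (Pool.Agent.V11273.PV.fP fun j => Pool.Agent.V11273.PV.yA (F j).Λ (F j).p (F j).t)
      (fun _ P => P ≠ 0) K io (ω T) ξ T := by
    unfold Exceptional
    simp only [hv]
    rfl
  have hcard : Fintype.card (Σ j, Fin (F j).d) = ∑ j, (F j).d := by
    rw [Fintype.card_sigma]
    exact Finset.sum_congr rfl fun j _ => Fintype.card_fin _
  rw [hset, ← hcard]
  exact h4

end Pool.Agent.Results.MP_ae0f86_nt.AlmostAllOneMotives
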