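import Pool.Agent.Helper264.NT.NearPV2
import Pool.Agent.V11273.PV.G23
import Pool.Agent.TH813.EKPer

/-!
# Periods of 1-motives: independence in bounded degree and height at ALL algebraic points near almost every point

Let `E_z : y² = 4 x³ - g₂(z) x - g₃(z)` be a family of elliptic curves over a base of any dimension `d`: `g₂, g₃` are algebraic
functions of `d` variables on a connected open set `U` of `ℂ^d`, and the quotient `ω₂/ω₁` of the periods is not constant. Let
`P_i = (℘(p_i), ℘'(p_i))`, `i < r`, be algebraic sections, independent modulo torsion, and let `f_k = exp(t_k)`, `k < s`, be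
algebraic functions, multiplicatively independent modulo constants. As every variety is locally finite over an affine space,
this is (a branch of) an arbitrary family of 1-motives `M_z = [ℤ^r → E_z] ⊕ [ℤ^s → 𝔾_m]` (given by the `P_i` and the `f_k`) over
an arbitrary base, for instance over the base of dimension `2 + r + s` with the coordinates `g₂, g₃, x(P_1), …, x(P_r)`,
`f_1, …, f_s`: the family of all these 1-motives.

The periods of `M_z` are algebraic over the field generated by `2 π i` and by the `3 + 2 r + s` numbers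

  `ω₁(z), ω₂(z), η₁(z)`, `p_i(z)`, `ζ(p_i(z))`, `t_k(z)`,

and the motivic Galois group of `M_z` has dimension `4 + 2 r + s` in general, so that these numbers and `2 π i` are
algebraically independent according to Grothendieck's conjecture. The same is expected for a sum of such motives
`M_{j, z_j}` in finitely many families, with arbitrary independent `z_j`: `∑ (3 + 2 r_j + s_j)` numbers which are algebraically
independent over `ℚ(π)`.

Let `d = ∑ d_j` be the dimension of the space of the tuples `(z_j)`. There is a set `E` in `ℂ^d` of Hausdorff dimension at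
most `2 d - 2` such that near every tuple `z` outside of `E` there are no exceptional tuples: for all `w > 0` (arbitrarily
small), all number fields `K` and all `k`, for large `T`, at ALL tuples with coordinates in `K` of height at most `T` at
distance at most `T ^ (-w)` from `z` the numbers satisfy no nonzero polynomial relation of partial degrees at most `k` with
coefficients `∑ ξ i * c i`, `i < k`, `c i` integers of `K` of size at most `T ^ k`, `ξ i` any given complex numbers (for
instance the monomials in `2 π i` and in the periods of a fixed motive). For real tuples `z` the same holds outside of a set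
in `ℝ^d` of dimension at most `d - 1`.
-/

set_option autoImplicit false

open Filter NumberField
open scoped PeriodPair ENNReal

namespace Pool.Agent.Results.MP_ae0f86_nt.NearEveryPoint

/-- The Weierstrass zeta function `ζ(z) = ∑ (1/(z-l) + 1/l + z/l²)`, the sum over the lattice (the summand of `l = 0` is
`1/z`, as `1/0 = 0`). -/
noncomputable def ζ (L : PeriodPair) (z : ℂ) : ℂ := ∑' l : L.lattice, (1 / (z - l) + 1 / l + z / l ^ 2)

/-- `g` is an algebraic function of the coordinates on `U`: it satisfies an equation `Q(x, g(x)) = 0`, `Q ≠ 0` a polynomial -/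
def IsAlgebraicOn {X : Type} (U : Set (X → ℂ)) (g : (X → ℂ) → ℂ) : Prop :=
  ∃ Q : Polynomial (MvPolynomial X ℂ), Q ≠ 0 ∧ ∀ x ∈ U, Q.eval₂ (MvPolynomial.eval x) (g x) = 0

/-- A family of 1-motives over an open set `U` of `ℂ^d`, with periods `ω₁, ω₂`, elliptic logarithms `p_i` of `r` sections and
logarithms `t_k` of `s` functions. -/
structure Family where
  /-- the dimension of the base -/
  d : ℕ
  /-- the number of the points -/
  r : ℕ
  /-- the number of the functions -/
  s : ℕ
  /-- the base -/
  U : Set (Fin d → ℂ)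
  /-- the lattices of periods -/
  Λ : (Fin d → ℂ) → PeriodPair
  /-- the elliptic logarithms -/
  p : Fin r → (Fin d → ℂ) → ℂ
  /-- the logarithms -/
  t : Fin s → (Fin d → ℂ) → ℂ
  isOpen : IsOpen U
  isPreconnected : IsPreconnected U
  nonempty : U.Nonempty
  /-- the lattice depends analytically on `z`, and its invariants are algebraic functions -/
  analytic₁ : AnalyticOnNhd ℂ (fun z => (Λ z).ω₁) U
  analytic₂ : AnalyticOnNhd ℂ (fun z => (Λ z).ω₂) U
  algebraic₂ : IsAlgebraicOn U fun z => (Λ z).g₂
  algebraic₃ : IsAlgebraicOn U fun z => (Λ z).g₃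
  /-- the family of elliptic curves is not isotrivial -/
  nonconstant : ∀ c : ℂ, ∃ z ∈ U, (Λ z).ω₂ / (Λ z).ω₁ ≠ c
  /-- the points are algebraic, not zero, and independent modulo torsion -/
  analytic_p : ∀ i, AnalyticOnNhd ℂ (p i) U
  notMem : ∀ i, ∀ z ∈ U, p i z ∉ (Λ z).lattice
  algebraic_p : ∀ i, IsAlgebraicOn U fun z => ℘[Λ z] (p i z)
  independent_p : ∀ m : Fin r → ℤ, m ≠ 0 → ∃ z ∈ U, ∑ i, (m i : ℂ) * p i z ∉ (Λ z).lattice
  /-- the functions `exp(t_k)` are algebraic and multiplicatively independent modulo constants -/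
  analytic_t : ∀ k, AnalyticOnNhd ℂ (t k) U
  algebraic_t : ∀ k, IsAlgebraicOn U fun z => Complex.exp (t k z)
  independent_t : ∀ m : Fin s → ℤ, m ≠ 0 → ∀ b : ℂ, ∃ z ∈ U, ∑ k, (m k : ℂ) * t k z ≠ b

/-- The names of the numbers `ω₁, ω₂, η₁`, and `p_i`, `ζ(p_i)`, `t_k`, in this order. -/
abbrev Name (r s : ℕ) : Type := Fin 3 ⊕ (Fin r ⊕ (Fin r ⊕ Fin s))

/-- The numbers at the point `z`; here `η₁ = 2 ζ(ω₁ / 2)` (and `η₂` is determined by Legendre's relation
`ω₂ η₁ - ω₁ η₂ = ± 2 π i`). -/
noncomputable def periods (F : Family) (z : Fin F.d → ℂ) : Name F.r F.s → ℂ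
  | Sum.inl a => ![(F.Λ z).ω₁, (F.Λ z).ω₂, 2 * ζ (F.Λ z) ((F.Λ z).ω₁ / 2)] a
  | Sum.inr (Sum.inl i) => F.p i z
  | Sum.inr (Sum.inr (Sum.inl i)) => ζ (F.Λ z) (F.p i z)
  | Sum.inr (Sum.inr (Sum.inr k)) => F.t k z

/-- quotients of two integers of `K`, all conjugates of which are at most `T` -/
def HeightLe (K : Type) [Field K] [NumberField K] (T : ℝ) (x : K) : Prop :=
  ∃ a b : 𝓞 K, b ≠ 0 ∧ house (a : K) ≤ T ∧ house (b : K) ≤ T ∧ x = a / b

/-- for a number field `K` embedded into `ℂ` by `io`: the partial degrees of `P` are at most `k`, and its coefficients are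
`∑ ξ i * c i`, `i < k`, where the `c i` are integers of `K`, all conjugates of which are at most `T ^ k` -/
def Small {σ : Type} (K : Type) [Field K] [NumberField K] (io : K →+* ℂ) (k : ℕ) (ξ : ℕ → ℂ) (T : ℝ)
    (P : MvPolynomial σ ℂ) : Prop :=
  (∀ y, P.degreeOf y ≤ k) ∧ ∀ m, ∃ c : Fin k → 𝓞 K, (∀ i (φ : K →+* ℂ), ‖φ (c i : K)‖ ≤ T ^ (k : ℝ)) ∧
    P.coeff m = ∑ i : Fin k, ξ i * io (c i : K)

/-- At all points `s` with coordinates in the number field `K` (embedded into `ℂ` by `io`) of height at most `T` and with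
`|s i - z i| ≤ T ^ (-w)` for all `i`, no nonzero small polynomial vanishes at the numbers `v a s`. -/
def NoRelationNear {X S : Type} (v : S → (X → ℂ) → ℂ) (ξ : ℕ → ℂ) (z : X → ℂ) (w : ℝ) (K : Type) [Field K]
    [NumberField K] (io : K →+* ℂ) (k : ℕ) (T : ℝ) : Prop :=
  ∀ s : X → K, (∀ i, HeightLe K T (s i)) → (∀ i, ‖io (s i) - z i‖ ≤ T ^ (-w)) →
    ∀ P : MvPolynomial S ℂ, Small K io k ξ T P →
      MvPolynomial.eval (fun a => v a fun i => io (s i)) P = 0 → P = 0

/-- The numbers `v a s` are independent in bounded degree and height at ALL algebraic points `s` near almost every point of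
`U`, `d` being the number of coordinates:
(1) there is a set `E` in `ℂ ^ d` of Hausdorff dimension at most `2 (d - 1)` such that for all `z ∈ U` outside of `E`, all
`w > 0`, all number fields `K ⊂ ℂ` and all `k`, `NoRelationNear v ξ z w K k T` holds for all large `T`;
(2) there is a set `E` in `ℝ ^ d` of dimension at most `d - 1` such that the same is true for all real `z ∈ U` outside of `E`
and all number fields `K ⊂ ℝ`. -/
def IndependentNearAlmostAll {X S : Type} [Fintype X] (U : Set (X → ℂ)) (v : S → (X → ℂ) → ℂ) (ξ : ℕ → ℂ) : Prop :=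
  (∃ E : Set (X → ℂ), dimH E ≤ ((2 * (Fintype.card X - 1) : ℕ) : ℝ≥0∞) ∧ ∀ z ∈ U, z ∉ E → ∀ w : ℝ, 0 < w →
    ∀ (K : IntermediateField ℚ ℂ) [NumberField K] (k : ℕ), ∀ᶠ T : ℝ in atTop,
      NoRelationNear v ξ z w K (algebraMap K ℂ) k T) ∧
  ∃ E : Set (X → ℝ), dimH E ≤ ((Fintype.card X - 1 : ℕ) : ℝ≥0∞) ∧
    ∀ z : X → ℝ, (fun i => (z i : ℂ)) ∈ U → z ∉ E → ∀ w : ℝ, 0 < w →
    ∀ (K : IntermediateField ℚ ℝ) [NumberField K] (k : ℕ), ∀ᶠ T : ℝ in atTop,
      NoRelationNear v ξ (fun i => (z i : ℂ)) w K (Complex.ofRealHom.comp (algebraMap K ℝ)) k T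

/-- the product of the bases -/
def bases {κ : Type} (F : κ → Family) : Set ((Σ j, Fin (F j).d) → ℂ) := {z | ∀ j, (fun i => z ⟨j, i⟩) ∈ (F j).U}

/-- the numbers of all the families, functions of the tuple `z` -/
noncomputable def allPeriods {κ : Type} (F : κ → Family) (a : Σ j, Name (F j).r (F j).s) (z : (Σ j, Fin (F j).d) → ℂ) : ℂ :=
  periods (F a.1) (fun i => z ⟨a.1, i⟩) a.2

/-- Let `F_j` be finitely many families of 1-motives (at least one) over bases of dimension `d_j`, `d = ∑ d_j`. For all complex
numbers `ξ i` the `∑ (3 + 2 r_j + s_j)` numbers `ω₁, ω₂, η₁, p_i, ζ(p_i), t_k` of all the families are independent in bounded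
degree and height at ALL tuples of algebraic points near every tuple outside of a set of dimension at most `2 (d - 1)`
(complex tuples), `d - 1` (real tuples): see `IndependentNearAlmostAll`. -/
theorem result {κ : Type} [Fintype κ] [DecidableEq κ] [Nonempty κ] (F : κ → Family) (ξ : ℕ → ℂ) :
    IndependentNearAlmostAll (bases F) (allPeriods F) ξ := by
  classical
  have hL : ∀ j, Pool.Agent.V11273.PV.FxL (F j).U (F j).Λ (F j).p (F j).t := fun j =>
    ⟨(F j).isOpen, (F j).isPreconnected, (F j).nonempty, (F j).analytic₁, (F j).analytic₂, (F j).nonconstant,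
      (F j).analytic_p, (F j).notMem, (by
      intro m hm
      by_contra hne
      obtain ⟨z, hz, hzn⟩ := (F j).independent_p m hne
      exact hzn (hm z hz)), (F j).analytic_t, (by
      intro m b hb
      by_contra hne
      obtain ⟨z, hz, hzn⟩ := (F j).independent_t m hne b
      exact hzn (hb z hz))⟩
  have hd : ∀ j, 0 < (F j).d := by
    intro j
    rcases Nat.eq_zero_or_pos (F j).d with h0 | h0
    · exfalso
      have hs : Subsingleton (Fin (F j).d → ℂ) := by
        rw [h0]
        infer_instance
      obtain ⟨z₀, hz₀⟩ := (F j).nonempty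
      obtain ⟨z, hz, hzn⟩ := (F j).nonconstant (((F j).Λ z₀).ω₂ / ((F j).Λ z₀).ω₁)
      rw [Subsingleton.elim z z₀] at hzn
      exact hzn rfl
    · exact h0
  have hne : Nonempty (Σ j, Fin (F j).d) := ⟨⟨Classical.arbitrary κ, ⟨0, hd _⟩⟩⟩
  have hv : allPeriods F = Pool.Agent.V11273.PV.fP (fun j => Pool.Agent.V11273.PV.yA (F j).Λ (F j).p (F j).t) := by
    funext a z
    rcases a with ⟨j, a⟩
    rcases a with k | i | i | k
    · fin_cases k
      · rfl
      · rfl
      · exact (Pool.Agent.TH813.Ell.eta_half ((F j).Λ _).ω₁_mem_lattice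
          (Pool.Agent.TH813.Ell.half₁ ((F j).Λ _))).symm
    all_goals rfl
  have hi := Pool.Agent.V11273.PV.indep_prod (X := fun j => Fin (F j).d) (U := fun j => (F j).U)
    (ι := fun j => Name (F j).r (F j).s) (V := fun j => Name (F j).r (F j).s)
    (Y := fun j z a _ => Pool.Agent.V11273.PV.yA (F j).Λ (F j).p (F j).t a z) (e := fun _ v => (v, v))
    (fun j => Pool.Agent.V11273.PV.fl_alg (hL j) (F j).algebraic₂ (F j).algebraic₃ (F j).algebraic_p (F j).algebraic_t)
  have hfan : ∀ a : Σ j, Name (F j).r (F j).s, AnalyticOnNhd ℂ (Pool.Agent.V11273.PV.fP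
      (fun j => Pool.Agent.V11273.PV.yA (F j).Λ (F j).p (F j).t) a) (Pool.Agent.V11273.PV.UU fun j => (F j).U) :=
    fun s => Pool.Agent.V11273.PV.fE_an (X := fun j => Fin (F j).d) (U := fun j => (F j).U)
      (ι := fun j => Name (F j).r (F j).s)
      (Y := fun j z a _ => Pool.Agent.V11273.PV.yA (F j).Λ (F j).p (F j).t a z)
      (fun j a _ => Pool.Agent.V11273.PV.yA_an (hL j) a) ⟨s.1, (s.2, s.2)⟩
  have h2 := Pool.Agent.Helper264.NT.near_two (S := Σ j, Name (F j).r (F j).s)
    (f := Pool.Agent.V11273.PV.fP (fun j => Pool.Agent.V11273.PV.yA (F j).Λ (F j).p (F j).t))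
    (Pool.Agent.V11273.PV.UU_preconn fun j => (F j).isPreconnected)
    (Pool.Agent.V11273.PV.UU_open fun j => (F j).isOpen) (Pool.Agent.V11273.PV.UU_ne fun j => (F j).nonempty)
    hfan hi ξ
  rw [hv]
  exact h2

end Pool.Agent.Results.MP_ae0f86_nt.NearEveryPoint
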