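import Pool.Agent.V11219.OmPerf
import Pool.Agent.Y123.ST.Out

/-!
# The period conjecture in torsor form for almost all fibres of families of 1-motives over families of
abelian varieties with local monodromy conditions

Let `h_i`, `1 ≤ i ≤ k`, be families of G-functions over `ℚ` (with the conditions of Siegel and
Galochkin, regular singular with rational exponents at `0`) and let `P_i(x)` be square matrices of size
`p_i + q_i` whose entries are polynomials with complex coefficients in `log x` and in the functions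
`h_{i,l}(x)`: the period matrices of families of 1-motives `[ℤ^{q_i} → A_{i,x}]`, where the
`A_i = ∏_j A_ij` are families of abelian varieties over an open part of the line, near a rational
point which may be a point of degeneration, and the `q_i` points are algebraic sections: the first
`p_i` rows are the integrals of the differential forms (of the first and second kind) over the
cycles, the last `q_i` rows the integrals over paths from `0` to the points (abelian logarithms and
integrals of the second kind). The `a`-th point is a section of the factor with the index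
`j = γ_i(a)`, and the index of the factor of the `b`-th cycle is `β_i(b)`. Let `Gal(P_i)` be the group of
the matrices `g` such that `P_i` and `g P_i` satisfy the same polynomial relations over `ℂ(x)`: the
Zariski closure of the monodromy group, if `P_i` is a fundamental matrix of a system.

**Conditions** (`PathMonodromy`). Every element of `Gal(P_i)` is of the form `((g, 0), (w, 1))`, it maps
cycles to cycles by `g` and a path to itself plus a cycle of the same factor, a row of `w`. The group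
of the `g` satisfies the condition `LocalMonodromy` on the local monodromy (see `MP_caab05_ag`): it is
block diagonal, respects the forms (polarisations) up to characters, acts strongly irreducibly on
the pieces `H_1(A_ij)`, no two of which are isomorphic up to scalars; and for every piece there is an
element `g`, with `(g - 1) ^ 2 = 0` (the local monodromy around a point of semistable reduction), such
that the rank of `g - 1` on the piece and the multiplicities of the nonzero eigenvalues of the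
`(g - 1) (g' - 1)`, for other elements `g'` of this type, are coprime, or contain the number two (or
the variant with several elements). Finally no nonzero linear combination of the cycles and paths is
fixed by `Gal(P_i)` (the sections are independent). There is no assumption on the unipotent
radical of `Gal(P_i)`.

**Theorem.** (0) Then `Gal(P_i)` contains all matrices `((g, 0), (w, 1))` for which `g` is an isometry of
the forms of the pieces, and `w` an arbitrary matrix compatible with the pieces: the semidirect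
product of `∏_j Sp(n_ij)` and `⨁_j (ℂ^(n_ij))^(q_ij)`.
For every `D`, for almost all tuples of integers `t` (all but `C N^(k-1) ∑_i (1 + N / (x_i + N)^c)` of
the tuples in the box `∏_i (x_i, x_i + N]`) the following holds for all number fields `K` of degree at
most `D` at once and all `K`-subtorsors `T` of `GL` (defined by polynomials over `K`, of any
degree, and closed under `x y⁻¹ z`) with `c ∈ T`, where `c = C₀ ⊕ ⨁ P_i(1 / t_i)` is the period
matrix of the sum of a motive `M_0` with any period matrix `C₀`, and of the fibres at `x_i = 1 / t_i`: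

1. `T` is, in the torsor of all isomorphisms `x_0 ⊕ ⨁ ((X_i, 0), (w_i, 1))` which respect the pieces and
   their polarisations (`X_i Q_i X_i^t = μ_ij B_i` on the piece `j`), the full inverse image of its
   image under `x_0` and the factors `μ_ij`. So the smallest `K`-subtorsor for `M_0 ⊕ ⨁ M_i` has at
   least the dimension `∑_i ∑_j (dim Sp(n_ij) + q_ij n_ij)` over the torsor of `M_0`.
2. Let moreover `M_0 = ℚ(-1)`, `C₀ = 2πi` (or a power of this object). If `T` is contained in the
   torsor of the isomorphisms `z ⊕ ⨁ ((X_i, 0), (w_i, 1))` with `X_i Q_i X_i^t = z^(e_ij) B_i` on the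
   piece `j` then it is equal to this torsor, whose dimension is
   `1 + ∑_i ∑_j (dim Sp(n_ij) + q_ij n_ij)`. As the torsor of motivic isomorphisms is such a `T` this
   determines it as well: it is the torsor of the sum of `ℚ(-1)` and the 1-motives of the fibres,
   and there is no relation between their periods which comes from a smaller `K`-subtorsor.

Moreover there are `D(N) → ∞` and `δ(N) → 0` such that for all but `δ(N) N^k` tuples `t` in `[1, N]^k`
all this is true for all number fields of degree at most `D(N)`.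

Proof. The derivations of the ring of relations given by matrices `((X, 0), (w, 0))` which map relations
of `P_i` to relations form a Lie algebra `𝔤`, stable under `Gal(P_i)`; it contains the logarithms of the
unipotent elements. The theorem on Lie algebras of `MP_90d181_ag` (extremal elements, and Goursat's
lemma in the version of Kolchin and Ribet) shows that the projection of `𝔤` to the cycles contains `sp`
of each piece. If `𝔤` does not contain the whole radical, some functional of the paths defines a cocycle of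
`sp` with values in the standard representation; this is a coboundary by a calculation with elements of
rank one, and it gives a combination of the cycles and paths which is fixed by `𝔤`, and then by
`Gal(P_i)`. So `Gal(P_i)` contains the group in (0), which is perfect and generated by unipotent
elements, and the theorem on stability of `BigMonodromyTorsors` applies.
-/

set_option autoImplicit false

open PowerSeries Filter
open scoped commutatorElement Matrix

namespace Pool.Agent.Results.MP_ae0f86_nt.OneMotiveLocalMonodromy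

open Pool.Agent.V11219.Per Pool.Agent.V11219.Om

theorem iter_eq {r : ℕ} (T : Polynomial ℤ) (A : Fin r → Fin r → Polynomial ℤ) (s : ℕ) :
    iter T A s = Pool.Agent.Y120.GH.itm T A s := by
  induction s with
  | zero => rfl
  | succ s ih =>
    funext i j
    rw [iter, Pool.Agent.Y120.GH.itm, ih]

theorem qu_eq {r : ℕ} {T : Polynomial ℤ} {A : Fin r → Fin r → Polynomial ℤ}
    (h : QuasiUnipotent T A) : Pool.Agent.Y120.GH.QU0 T A := by
  obtain ⟨e, M, K, Φ, he, hdet, hc, heq⟩ := h
  have he0 : e ≠ 0 := by omega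
  refine ⟨e, he0, M, K, Φ, hc, fun i j n => ?_, hdet⟩
  have h1 := heq i j n
  simp only [atPow] at h1
  rw [Pool.Agent.Y120.GH.expand_poly he0]
  simp only [Pool.Agent.Y120.GH.expand_poly he0]
  exact h1

theorem fam {r : ℕ} {T : Polynomial ℤ} {A : Fin r → Fin r → Polynomial ℤ}
    {h : Fin r → PowerSeries ℚ} (hG : GFamily T A h) (δ : ℕ) : Pool.Agent.Y120.R.Fam δ h :=
  ⟨hG.size, Pool.Agent.Y120.GH.family_main hG.T_ne hG.ode hG.size hG.den (by
    obtain ⟨C, hC⟩ := hG.galochkin
    refine ⟨C, fun m => ?_⟩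
    obtain ⟨d, h1, h2, h3⟩ := hC m
    refine ⟨d, h1, h2, fun s hs i' j' => ?_⟩
    rw [← iter_eq]
    exact h3 s hs i' j') (qu_eq hG.regular) δ⟩

/-- `T` is (the set of complex points of) a `K`-subtorsor of `GL_B = Iso (M_dR, M_B)`: it is closed
under `x y⁻¹ z`, and it is defined in `GL_B` by polynomials with coefficients in `K`. -/
def IsSubtorsor (K : Subfield ℂ) {B : Type} [Fintype B] [DecidableEq B] (T : Set (Matrix B B ℂ)) :
    Prop :=
  (∀ x ∈ T, ∀ y ∈ T, ∀ z ∈ T, x * y⁻¹ * z ∈ T) ∧ ∃ I : Set (MvPolynomial (B × B) K),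
    ∀ x : Matrix B B ℂ, x ∈ T ↔ IsUnit x ∧
      ∀ p ∈ I, MvPolynomial.eval (fun b => x b.1 b.2) (MvPolynomial.map (algebraMap K ℂ) p) = 0

section
variable {k r : ℕ} {p q ρ : Fin k → ℕ}

/-- the block matrix `x ⊕ X_1 ⊕ … ⊕ X_k` -/
noncomputable def total (x : Matrix (Fin r) (Fin r) ℂ)
    (X : ∀ i, Matrix (Fin (p i + q i)) (Fin (p i + q i)) ℂ) :
    Matrix (Fin r ⊕ Σ i, Fin (p i + q i)) (Fin r ⊕ Σ i, Fin (p i + q i)) ℂ :=
  Matrix.fromBlocks x 0 0 (Matrix.blockDiagonal' X)

/-- The isomorphism `((X, 0), (w, 1))` of the de Rham and Betti realisations respects the pieces and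
their polarisations `Q` (de Rham) and `B` (Betti) up to the factors `μ_j`. -/
def RespectsOne {p q m : ℕ} (β : Fin p → Fin m) (γ : Fin q → Fin m)
    (B Q : Matrix (Fin p) (Fin p) ℂ) (μ : Fin m → ℂ) (Y : Matrix (Fin (p + q)) (Fin (p + q)) ℂ) :
    Prop :=
  ∃ (X : Matrix (Fin p) (Fin p) ℂ) (w : Matrix (Fin q) (Fin p) ℂ), Y = ext X w ∧
    Compatible β γ w ∧ BlockDiagonal β X ∧ ∀ a b, (X * Q * Xᵀ) a b = μ (β a) * B a b

/-- All the isomorphisms `Y_i` respect the pieces and their polarisations. -/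
def Respects {m : Fin k → ℕ} (β : ∀ i, Fin (p i) → Fin (m i)) (γ : ∀ i, Fin (q i) → Fin (m i))
    (B Q : ∀ i, Matrix (Fin (p i)) (Fin (p i)) ℂ) (μ : ∀ i, Fin (m i) → ℂ)
    (Y : ∀ i, Matrix (Fin (p i + q i)) (Fin (p i + q i)) ℂ) : Prop :=
  ∀ i, RespectsOne (β i) (γ i) (B i) (Q i) (μ i) (Y i)

/-- The isomorphisms `z ⊕ … ⊕ z ⊕ Y_1 ⊕ … ⊕ Y_k` of an `r`-fold sum of the object `ℚ(-1)` and of the
`M_i` which respect the pieces and their polarisations, with values in `ℚ(-e_ij)`. -/
def torsorOf (r : ℕ) {m : Fin k → ℕ} (β : ∀ i, Fin (p i) → Fin (m i))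
    (γ : ∀ i, Fin (q i) → Fin (m i)) (B Q : ∀ i, Matrix (Fin (p i)) (Fin (p i)) ℂ)
    (e : ∀ i, Fin (m i) → ℤ) :
    Set (Matrix (Fin r ⊕ Σ i, Fin (p i + q i)) (Fin r ⊕ Σ i, Fin (p i + q i)) ℂ) :=
  {y | ∃ z : ℂ, z ≠ 0 ∧ ∃ Y : ∀ i, Matrix (Fin (p i + q i)) (Fin (p i + q i)) ℂ,
    y = total (z • 1) Y ∧ Respects β γ B Q (fun i j => z ^ (e i j)) Y}

/-- The conclusion for one tuple; `Z i` is the period matrix of the fibre of the `i`-th family. -/
def Good (D : ℕ) (C₀ : Matrix (Fin r) (Fin r) ℂ) (h : ∀ i, Fin (ρ i) → PowerSeries ℚ)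
    (P : ∀ i, Fin (p i + q i) → Fin (p i + q i) → MvPolynomial (Option (Fin (ρ i))) ℂ)
    (Z : ∀ i, Matrix (Fin (p i + q i)) (Fin (p i + q i)) ℂ) : Prop :=
  ∀ K : Subfield ℂ, FiniteDimensional ℚ K → Module.finrank ℚ K ≤ D →
  ∀ T : Set (Matrix (Fin r ⊕ Σ i, Fin (p i + q i)) (Fin r ⊕ Σ i, Fin (p i + q i)) ℂ),
  IsSubtorsor K T → total C₀ Z ∈ T →
  ∀ (m : Fin k → ℕ) (β : ∀ i, Fin (p i) → Fin (m i)) (γ : ∀ i, Fin (q i) → Fin (m i))
    (B : ∀ i, Matrix (Fin (p i)) (Fin (p i)) ℂ),
  (∀ i, PathMonodromy (β i) (γ i) (B i) (Gal (h i) (P i))) →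
  -- 1: the relative case
  (∀ (Q : ∀ i, Matrix (Fin (p i)) (Fin (p i)) ℂ) (μ : ∀ i, Fin (m i) → ℂ)
    (x₀ : Matrix (Fin r) (Fin r) ℂ) (X Y : ∀ i, Matrix (Fin (p i + q i)) (Fin (p i + q i)) ℂ),
    (∀ i j, μ i j ≠ 0) → Respects β γ B Q μ X → Respects β γ B Q μ Y →
    total x₀ X ∈ T → total x₀ Y ∈ T) ∧
  -- 2: the absolute case
  (0 < r → C₀ = (2 * Real.pi * Complex.I : ℂ) • 1 →
    ∀ (Q : ∀ i, Matrix (Fin (p i)) (Fin (p i)) ℂ) (e : ∀ i, Fin (m i) → ℤ),
    T ⊆ torsorOf r β γ B Q e → T = torsorOf r β γ B Q e)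

theorem ext_unit {p q : ℕ} {X : Matrix (Fin p) (Fin p) ℂ} {w : Matrix (Fin q) (Fin p) ℂ}
    (h : IsUnit (ext X w)) : IsUnit X := by
  rw [Matrix.isUnit_iff_isUnit_det] at h ⊢
  have h1 : (ext X w).det = X.det := by
    rw [Pool.Agent.V11219.Om.ext, Matrix.det_reindex_self, Matrix.det_fromBlocks_zero₁₂, Matrix.det_one, mul_one]
  rwa [h1] at h

theorem good_of {D : ℕ} {C₀ : Matrix (Fin r) (Fin r) ℂ} {h : ∀ i, Fin (ρ i) → PowerSeries ℚ}
    {P : ∀ i, Fin (p i + q i) → Fin (p i + q i) → MvPolynomial (Option (Fin (ρ i))) ℂ}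
    {t : Fin k → ℕ} (hg : Pool.Agent.Y123.GN.GoodU D C₀ h P t) :
    Good D C₀ h P fun i => perMat (h i) (P i) (t i : ℝ) := by
  intro K hKf hKD T hT hcT m β γ B hL
  have hT' := Pool.Agent.Y123.ST.subT_iff.1 hT
  have h1 := hg K hKf hKD T hT' hcT
  have hKalg : ∀ x ∈ K, IsAlgebraic ℚ x := by
    intro x hx
    have : NumberField K := { to_charZero := inferInstance, to_finiteDimensional := hKf }
    have h6 : IsAlgebraic ℚ (⟨x, hx⟩ : K) := Algebra.IsAlgebraic.isAlgebraic _
    exact h6.algebraMap (A := ℂ)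
  have hst : ∀ g : ∀ i, (Matrix (Fin (p i + q i)) (Fin (p i + q i)) ℂ)ˣ,
      (∀ i, g i ∈ ExtG (β i) (γ i) (B i)) → ∀ x ∈ T, Pool.Agent.Y123.GN.EG 1
        (fun i => (g i : Matrix (Fin (p i + q i)) (Fin (p i + q i)) ℂ)) * x ∈ T := by
    intro g hgB x hx
    exact h1 g (fun i => extG_le_comm (Z := perMat (h i) (P i)) (G := Gal (h i) (P i))
      (fun _ => Iff.rfl) (hL i) (hgB i)) x hx
  have hfull : ∀ (Q : ∀ i, Matrix (Fin (p i)) (Fin (p i)) ℂ) (μ : ∀ i, Fin (m i) → ℂ)
      (x₀ : Matrix (Fin r) (Fin r) ℂ) (X Y : ∀ i, Matrix (Fin (p i + q i)) (Fin (p i + q i)) ℂ),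
      (∀ i j, μ i j ≠ 0) → Respects β γ B Q μ X → Respects β γ B Q μ Y →
      total x₀ X ∈ T → total x₀ Y ∈ T := by
    intro Q μ x₀ X Y hμ hX hY hx
    have hu : ∀ i, IsUnit (X i) := Pool.Agent.Y123.GN.EG_block_unit (hT'.isUnit _ hx)
    have hq : ∀ i, ∃ g ∈ ExtG (β i) (γ i) (B i),
        (g : Matrix (Fin (p i + q i)) (Fin (p i + q i)) ℂ) * X i = Y i := by
      intro i
      obtain ⟨X₀, w, hXe, hw, hXb, hXQ⟩ := hX i
      obtain ⟨Y₀, w', hYe, hw', hYb, hYQ⟩ := hY i
      have hu' := hu i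
      rw [hXe] at hu'
      obtain ⟨g, hg, hgX⟩ := quot_ext (hL i).cycles.form.unit (hμ i) (ext_unit hu') hXb hYb hXQ hYQ
        hw hw'
      exact ⟨g, hg, by rw [hXe, hYe, hgX]⟩
    choose g hg' hgX using hq
    have h2 := hst g hg' _ hx
    have h3 : total x₀ X = Pool.Agent.Y123.GN.EG x₀ X := rfl
    rw [h3, Pool.Agent.Y123.GN.EG_mul, Matrix.one_mul] at h2
    have h4 : (fun i => (g i : Matrix (Fin (p i + q i)) (Fin (p i + q i)) ℂ) * X i) = Y := by
      funext i
      exact hgX i
    rwa [h4] at h2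
  refine ⟨hfull, ?_⟩
  intro hr hC₀ Q e hTF
  have hne : Nonempty (Fin r) := ⟨⟨0, hr⟩⟩
  rw [hC₀] at hcT
  refine Set.Subset.antisymm hTF ?_
  rintro _ ⟨z, hz, Y, rfl, hY⟩
  obtain ⟨X, hX⟩ := Pool.Agent.Y123.GN.tate_all hKalg hT' hcT hz
  obtain ⟨z', hz', X', hXX', hX'⟩ := hTF hX
  obtain ⟨h2, h3⟩ := Pool.Agent.Y123.GN.EG_inj hXX'
  have h4 : z = z' := Pool.Agent.Y123.GN.smul_one_inj h2
  subst h4
  subst h3
  exact hfull Q _ _ X Y (fun i j => zpow_ne_zero _ hz) hX' hY hX

end

/-- **The theorem.** -/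
theorem result (k e r : ℕ) (ρ p q : Fin k → ℕ) (T : Fin k → Polynomial ℤ)
    (A : ∀ i, Fin (ρ i) → Fin (ρ i) → Polynomial ℤ) (h : ∀ i, Fin (ρ i) → PowerSeries ℚ)
    (hG : ∀ i, GFamily (T i) (A i) (h i)) :
    -- the groups
    (∀ (i : Fin k) (p q m : ℕ)
      (P : Fin (p + q) → Fin (p + q) → MvPolynomial (Option (Fin (ρ i))) ℂ)
      (β : Fin p → Fin m) (γ : Fin q → Fin m) (B : Matrix (Fin p) (Fin p) ℂ),
      PathMonodromy β γ B (Gal (h i) P) →
      ∀ g : Matrix.GeneralLinearGroup (Fin (p + q)) ℂ,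
        ExtIsometry β γ B (g : Matrix (Fin (p + q)) (Fin (p + q)) ℂ) → g ∈ Gal (h i) P) ∧
    -- number fields of degree at most `D`
    (∀ D : ℕ, ∃ c C : ℝ, 0 < c ∧ 0 ≤ C ∧
      ∀ P : ∀ i, Fin (p i + q i) → Fin (p i + q i) → MvPolynomial (Option (Fin (ρ i))) ℂ,
      (∀ i a b, (P i a b).totalDegree ≤ e) → ∀ C₀ : Matrix (Fin r) (Fin r) ℂ,
      ∀ (x : Fin k → ℕ) (N : ℕ), 1 ≤ N →
      (({t : Fin k → ℕ | (∀ i, x i < t i ∧ t i ≤ x i + N) ∧
        ¬ Good D C₀ h P fun i => perMat (h i) (P i) (t i : ℝ)}.ncard : ℕ) : ℝ) ≤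
        C * (N : ℝ) ^ (k - 1) * ∑ i, (1 + N / ((x i : ℝ) + N) ^ c)) ∧
    -- number fields of degree at most `D N`, which tends to infinity
    (∃ (D : ℕ → ℕ) (δ : ℕ → ℝ), Tendsto D atTop atTop ∧ Tendsto δ atTop (nhds 0) ∧
      ∀ P : ∀ i, Fin (p i + q i) → Fin (p i + q i) → MvPolynomial (Option (Fin (ρ i))) ℂ,
      (∀ i a b, (P i a b).totalDegree ≤ e) → ∀ C₀ : Matrix (Fin r) (Fin r) ℂ, ∀ N : ℕ, 1 ≤ N →
      (({t : Fin k → ℕ | (∀ i, 1 ≤ t i ∧ t i ≤ N) ∧
        ¬ Good (D N) C₀ h P fun i => perMat (h i) (P i) (t i : ℝ)}.ncard : ℕ) : ℝ) ≤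
        δ N * (N : ℝ) ^ k) := by
  classical
  have hmain : ∀ D : ℕ, ∃ c C : ℝ, 0 < c ∧ 0 ≤ C ∧
      ∀ P : ∀ i, Fin (p i + q i) → Fin (p i + q i) → MvPolynomial (Option (Fin (ρ i))) ℂ,
      (∀ i a b, (P i a b).totalDegree ≤ e) → ∀ C₀ : Matrix (Fin r) (Fin r) ℂ,
      ∀ (x : Fin k → ℕ) (N : ℕ), 1 ≤ N →
      (({t : Fin k → ℕ | (∀ i, x i < t i ∧ t i ≤ x i + N) ∧
        ¬ Good D C₀ h P fun i => perMat (h i) (P i) (t i : ℝ)}.ncard : ℕ) : ℝ) ≤
        C * (N : ℝ) ^ (k - 1) * ∑ i, (1 + N / ((x i : ℝ) + N) ^ c) := by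
    intro D
    obtain ⟨c, C, hc, hC, hmain⟩ := Pool.Agent.Y123.GN.all_main k D e r ρ (fun i => p i + q i) h
      fun i δ => fam (hG i) δ
    refine ⟨c, C, hc, hC, ?_⟩
    intro P hP C₀ x N hN
    set E := {t : Fin k → ℕ | (∀ i, x i < t i ∧ t i ≤ x i + N) ∧
        ¬ Good D C₀ h P fun i => perMat (h i) (P i) (t i : ℝ)} with hE
    have hfin : E.Finite := by
      refine (Set.finite_Iic (fun i : Fin k => x i + N)).subset ?_
      intro t ht i
      exact (ht.1 i).2
    rw [Set.ncard_eq_toFinset_card E hfin]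
    refine hmain P hP C₀ x N hN _ fun t ht => ?_
    have ht' : t ∈ E := hfin.mem_toFinset.1 ht
    exact ⟨ht'.1, fun hgood => ht'.2 (good_of hgood)⟩
  refine ⟨?_, hmain, ?_⟩
  · intro i p q m P β γ B hL g hg
    obtain ⟨u, hu, hu'⟩ := extG_of hL.cycles.form.unit hg
    have h1 : u = g := Units.ext hu'
    rw [← h1]
    exact extG_le (Z := perMat (h i) P) (fun _ => Iff.rfl) hL hu
  choose c C hc hC hcount using hmain
  obtain ⟨D, hD, hδ⟩ := Pool.Agent.Y123.GN.diag_seq
    (fun D N => C D * k * (1 / (N : ℝ) + 1 / (N : ℝ) ^ (c D))) (by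
      intro D
      have h1 : Tendsto (fun N : ℕ => (1 : ℝ) / (N : ℝ)) atTop (nhds 0) :=
        tendsto_one_div_atTop_nhds_zero_nat
      have h2 : Tendsto (fun N : ℕ => (1 : ℝ) / (N : ℝ) ^ (c D)) atTop (nhds 0) := by
        have h3 := (tendsto_rpow_atTop (hc D)).comp tendsto_natCast_atTop_atTop
        have h4 := h3.inv_tendsto_atTop
        refine h4.congr fun N => ?_
        rw [one_div]
        rfl
      have h5 := (h1.add h2).const_mul (C D * k)
      rw [add_zero, mul_zero] at h5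
      exact h5)
  refine ⟨D, _, hD, hδ, ?_⟩
  intro P hP C₀ N hN
  have h1 := hcount (D N) P hP C₀ (fun _ => 0) N hN
  have h2 : {t : Fin k → ℕ | (∀ i, 0 < t i ∧ t i ≤ 0 + N) ∧
      ¬ Good (D N) C₀ h P fun i => perMat (h i) (P i) (t i : ℝ)} =
      {t : Fin k → ℕ | (∀ i, 1 ≤ t i ∧ t i ≤ N) ∧
      ¬ Good (D N) C₀ h P fun i => perMat (h i) (P i) (t i : ℝ)} := by
    ext t
    simp only [Set.mem_setOf_eq, zero_add, Nat.lt_iff_add_one_le]
  rw [h2] at h1
  refine h1.trans (le_of_eq ?_)
  have hN0 : (N : ℝ) ≠ 0 := by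
    have : N ≠ 0 := by omega
    exact_mod_cast this
  rw [Finset.sum_const, Finset.card_univ, Fintype.card_fin, nsmul_eq_mul, Nat.cast_zero, zero_add]
  rcases Nat.eq_zero_or_pos k with hk | hk
  · subst hk
    simp
  · obtain ⟨s, rfl⟩ : ∃ s, k = s + 1 := ⟨k - 1, by omega⟩
    have h3 : (N : ℝ) ^ (s + 1) = (N : ℝ) ^ s * N := pow_succ _ _
    rw [Nat.add_sub_cancel, h3]
    have h4 : (1 : ℝ) + N / (N : ℝ) ^ (c (D N)) = N * (1 / (N : ℝ) + 1 / (N : ℝ) ^ (c (D N))) := by
      rw [mul_add, mul_one_div_cancel hN0, mul_one_div]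
    rw [h4]
    ring

end Pool.Agent.Results.MP_ae0f86_nt.OneMotiveLocalMonodromy
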