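import Pool.Agent.Results.MP_ae0f86_nt.BoundedDegreeOneMotives
import Pool.Agent.V11286.NE.Roots

/-!
# Integrals of the three kinds on hyperelliptic curves at ALL tuples of algebraic integers in windows around almost every
direction

For polynomials `F_a`, `q_a` as in the starting result `BoundedDegreeOneMotives` let `Φ_(a,j)` be primitives of the
differentials `x^j dx / (q_a √F_a)` on a domain: the generalised logarithms of the point `(x, √F_a(x)) - ∞` of the
generalised Jacobian of the curve `y² = F_a(x)` and of its universal vector extension. Let `v_1, v_2, …` tend to infinity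
faster than every power (for instance `v_N = 2 ^ N`) and let `M` be a countable set of complex numbers (for instance the
field generated by all periods). For almost all real `k × m`-matrices `A` the following holds for all tuples `θ` of distinct
natural numbers, all `δ`, `d` and all finite subsets `S` of `M`. For all large `N` and ALL `k`-tuples of algebraic integers
`α_i` of degree `m` such that the coefficient of `X ^ j` in the minimal polynomial of `α_i` is at most `v_N ^ ϑ` away from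
`A_ij v_N ^ (m - j)` and the `α_i + θ_j` are in the domain, the generalised logarithms at all the `α_i + θ_j`, for all the
curves, and the logarithms of the `α_i + θ_j` satisfy no nontrivial relation of degree at most `δ` with coefficients in the
span of `S` over a number field of degree at most `d`. The exponent `ϑ > 0` depends only on the curves and primitives, on
`k`, `m`, `θ`, `δ`, `d` and the number of elements of `S`.

The proof: the count of the exceptional tuples in boxes (library `Pool.Agent.Y916.Sl`), which is uniform in `S`, a weighted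
covering argument and the lemma of Borel and Cantelli.
-/

set_option autoImplicit false

namespace Pool.Agent.Results.MP_ae0f86_nt.WindowsOfAlgebraicIntegers

open MeasureTheory Polynomial BoundedDegreeOneMotives

/-- the real numbers `v_N ≥ 1` tend to infinity so fast that `∑ v_N ^ (-s) < ∞` for all `s > 0`, for instance
`v_N = 2 ^ N` -/
def Fast (v : ℕ → ℝ) : Prop := (∀ n, 1 ≤ v n) ∧ ∀ s : ℝ, 0 < s → Summable fun n : ℕ => (v n) ^ (-s)

/-- The `α_i` are algebraic integers of degree `m`, with minimal polynomials `f_i` such that the coefficient of `X ^ j` in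
`f_i` is at most `v ^ t` away from `A_ij v ^ (m - j)` for all `j < m`. -/
def InWindows {k m : ℕ} (A : Fin k × Fin m → ℝ) (v t : ℝ) (α : Fin k → ℂ) : Prop :=
  ∃ f : Fin k → ℤ[X], (∀ i, (f i).Monic ∧ (f i).natDegree = m ∧ Irreducible (f i) ∧ aeval (α i) (f i) = 0) ∧
    ∀ (i : Fin k) (j : Fin m), |((f i).coeff j : ℝ) - A (i, j) * v ^ (m - (j : ℕ))| ≤ v ^ t

/-- **Main result.** Let `F_a`, `q_a` be integral polynomials with positive leading coefficients such that `F_a q_a` is
squarefree, `deg F_a` is odd, `deg F_a + 2 deg q_a ≥ 3` and no `F_a` is proportional to an integral translate of another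
`F_b`. -/
theorem result {s : ℕ} (F q : Fin s → Polynomial ℤ)
    (hsf : ∀ a, Squarefree ((F a * q a).map (Int.castRingHom ℚ))) (hodd : ∀ a, Odd (F a).natDegree)
    (hdeg : ∀ a, 3 ≤ (F a).natDegree + 2 * (q a).natDegree)
    (hpos : ∀ a, 0 < (F a).leadingCoeff ∧ 0 < (q a).leadingCoeff)
    (hdist : ∀ a b, a ≠ b → ∀ h c₁ c₂ : ℤ, c₁ ≠ 0 → c₂ ≠ 0 →
      Polynomial.C c₁ * F a ≠ Polynomial.C c₂ * (F b).comp (Polynomial.X + Polynomial.C h))
    (u : ℂ) (hu : u ≠ 0) (R : ℝ) (S : Fin s → ℂ → ℂ) (Φ : Idx F q → ℂ → ℂ) (hΦ : Primitives F q u R S Φ)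
    (k m : ℕ) (hk : 1 ≤ k) (hm : 1 ≤ m) :
    Fast (fun n => (2 : ℝ) ^ n) ∧
    ∃ ϑ : (r : ℕ) → (Fin r → ℕ) → ℕ → ℕ → ℕ → ℝ, (∀ r θ δ d D, 0 < ϑ r θ δ d D) ∧ ∀ v : ℕ → ℝ, Fast v →
      ∀ M : Set ℂ, M.Countable → ∀ᵐ A : Fin k × Fin m → ℝ,
        ∀ (r : ℕ) (θ : Fin r → ℕ), Function.Injective θ → ∀ (δ d : ℕ) (W : Finset ℂ), (W : Set ℂ) ⊆ M →
          ∃ N₀ : ℕ, ∀ N : ℕ, N₀ ≤ N → ∀ α : Fin k → ℂ, InWindows A (v N) (ϑ r θ δ d W.card) α →
            (∀ i j, α i + θ j ∈ Domain u R) → ¬ Related δ d (Submodule.span ℚ (W : Set ℂ))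
              fun p : (Fin k × Fin r) × (Idx F q ⊕ Unit) => number Φ (α p.1.1 + θ p.1.2) p.2 := by
  classical
  have hG : ∀ a, Pool.Agent.Y916.Sa.GoodP (F a) (q a) := by
    intro a
    have h := hsf a
    rw [Polynomial.map_mul, squarefree_mul_iff] at h
    exact ⟨h.2.1, hodd a, (hpos a).1, h.2.2, (hpos a).2, h.1.isCoprime, hdeg a⟩
  have hx : ∀ (x : ℂ) i, number Φ x i = Pool.Agent.Y916.Sl.xP F q Φ x i := by
    rintro x (p | w) <;> rfl
  simp only [hx]
  set Bad : (r : ℕ) → (Fin r → ℕ) → ℕ → ℕ → Submodule ℚ ℂ → Set (Fin k → ℂ) := fun r θ δ d V =>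
    {α | (∀ i j, α i + θ j ∈ Domain u R) ∧ Related δ d V
      fun p : (Fin k × Fin r) × (Idx F q ⊕ Unit) => Pool.Agent.Y916.Sl.xP F q Φ (α p.1.1 + θ p.1.2) p.2} with hBad
  have key : ∀ (r : ℕ) (θ : Fin r → ℕ) (δ d D : ℕ), ∃ c C : ℝ, 0 < c ∧ 0 ≤ C ∧ (Function.Injective θ →
      ∀ V : Submodule ℚ ℂ, Module.Finite ℚ V → Module.finrank ℚ V ≤ D → ∀ T : ℕ, 1 ≤ T →
        {α : Fin k → ℂ | (∀ i, Pool.Agent.Y916.Sl.AInt m T (α i)) ∧ α ∈ Bad r θ δ d V}.Finite ∧
        ({α : Fin k → ℂ | (∀ i, Pool.Agent.Y916.Sl.AInt m T (α i)) ∧ α ∈ Bad r θ δ d V}.ncard : ℝ) ≤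
          C * (T : ℝ) ^ (((k * Pool.Agent.Y916.Sl.Mm m : ℕ) : ℝ) - c)) := by
    intro r θ δ d D
    by_cases hθ : Function.Injective θ
    · obtain ⟨c, hc, C, hC, h⟩ := Pool.Agent.Y916.Sl.tuplesD Pool.Agent.Y916.Sl.tV Pool.Agent.Y916.Sl.tQ
        Pool.Agent.Y916.Sl.tP F q hG (fun a b hab h c₁ c₂ => hdist a b hab h c₁ c₂) hu (R := R) (S := S) (Φ := Φ)
        (fun x hx1 hx2 => hΦ x ⟨hx1, hx2⟩) m θ hθ k δ d D
      exact ⟨c, C, hc, hC, fun _ => h⟩
    · exact ⟨1, 0, one_pos, le_rfl, fun h => absurd h hθ⟩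
  choose c C hc hC0 hC using key
  refine ⟨⟨fun n => one_le_pow₀ (by norm_num), fun s hs => Pool.Agent.V11286.NE.sum_two s hs⟩,
    fun r θ δ d D => Pool.Agent.V11286.NE.expo k m (c r θ δ d D),
    fun r θ δ d D => Pool.Agent.V11286.NE.expo_pos hk hm (hc r θ δ d D), ?_⟩
  intro v hv M hM
  have : Countable M := hM.to_subtype
  have main : ∀ᵐ A : Fin k × Fin m → ℝ, ∀ (r : ℕ) (θ : Fin r → ℕ) (δ d : ℕ) (S : Finset M), Function.Injective θ →
      ∃ N₀ : ℕ, ∀ N : ℕ, N₀ ≤ N → ∀ f : Fin k → ℤ[X],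
      (∀ i, (f i).Monic ∧ (f i).natDegree = m ∧ Irreducible (f i)) →
        (∀ (i : Fin k) (j : Fin m), |((f i).coeff j : ℝ) - A (i, j) * (v N) ^ (m - (j : ℕ))| ≤
          (v N) ^ Pool.Agent.V11286.NE.expo k m (c r θ δ d S.card)) → ∀ α : Fin k → ℂ, (∀ i, aeval (α i) (f i) = 0) →
            α ∉ Bad r θ δ d (Submodule.span ℚ ((S.map ⟨Subtype.val, Subtype.val_injective⟩ :
              Finset ℂ) : Set ℂ)) := by
    rw [ae_all_iff]; intro r
    rw [ae_all_iff]; intro θ
    rw [ae_all_iff]; intro δ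
    rw [ae_all_iff]; intro d
    rw [ae_all_iff]; intro S
    by_cases hθ : Function.Injective θ
    · have hVf : Module.Finite ℚ (Submodule.span ℚ ((S.map ⟨Subtype.val, Subtype.val_injective⟩ :
          Finset ℂ) : Set ℂ)) := Module.Finite.span_finset ℚ _
      have hVd : Module.finrank ℚ (Submodule.span ℚ ((S.map ⟨Subtype.val, Subtype.val_injective⟩ :
          Finset ℂ) : Set ℂ)) ≤ S.card := by
        refine (finrank_span_finset_le_card _).trans ?_
        rw [Finset.card_map]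
      have h1 := Pool.Agent.V11286.NE.roots_ae hk hm _ (hc r θ δ d S.card) (hC0 r θ δ d S.card)
        (hC r θ δ d S.card hθ _ hVf hVd) hv.1 hv.2
      filter_upwards [h1] with A hA _ using hA
    · exact Filter.Eventually.of_forall fun A h => absurd h hθ
  filter_upwards [main] with A hA r θ hθ δ d W hW
  obtain ⟨S', hS'⟩ : ∃ S' : Finset M, W = S'.map ⟨Subtype.val, Subtype.val_injective⟩ := by
    refine ⟨W.subtype (· ∈ M), ?_⟩
    ext x
    simp only [Finset.mem_map, Finset.mem_subtype, Function.Embedding.coeFn_mk, Subtype.exists, exists_and_right,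
      exists_eq_right]
    exact ⟨fun h => ⟨hW h, h⟩, fun ⟨_, h⟩ => h⟩
  obtain ⟨N₀, hN₀⟩ := hA r θ δ d S' hθ
  have hcd : S'.card = W.card := by rw [hS', Finset.card_map]
  refine ⟨N₀, fun N hN α hα hdom hrel => ?_⟩
  obtain ⟨f, hf, hnear⟩ := hα
  rw [← hcd] at hnear
  refine hN₀ N hN f (fun i => ⟨(hf i).1, (hf i).2.1, (hf i).2.2.1⟩) hnear α (fun i => (hf i).2.2.2) ⟨hdom, ?_⟩
  rw [← hS']
  exact hrel

end Pool.Agent.Results.MP_ae0f86_nt.WindowsOfAlgebraicIntegers
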